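import Pool.Agent.Y472.A.Defs2
import Pool.Agent.W349.HT.Gdl

/-!
# Project CB3: the limit of the divided differences at `l = -1` (task GDA)

Adapted from `Pool.Agent.W349.HT.Gdl`.
-/

set_option autoImplicit false

namespace Pool.Agent.Y686.CB

open Filter Finset EvenVol Pool.Agent.W709.VC Pool.Agent.H112R4.VL MeasureTheory
open Pool.Agent.W349.HT (EZ PZ PZ_cont EZ_diff EZ_symm QZ FZ rect_FZ rect_upp FZ_odd FZ_RI zz_one)
open scoped Real Topology

/-- general nodes -/
noncomputable def QG (T : Finset ℕ) (z : ℕ → ℂ) (φ : ℂ) : ℂ :=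
  ∏ j ∈ T, (2 * Complex.cos φ - 2 * Complex.cos (z j))

/-- The residue sum. -/
lemma rect_QG (a : ℤ) (N : ℕ) (T : Finset ℕ) (hT : T.Nonempty) (z : ℕ → ℂ) (h : ℝ)
    (hnode : ∀ j ∈ T, 0 < (z j).re ∧ (z j).re < 2 * π ∧ |(z j).im| < h)
    (hinj : Set.InjOn (fun j : ℕ => 2 * Complex.cos (z j)) T) :
    Pool.Agent.W709.VC.rect (fun φ => PZ a N (1, 1) φ / QG T z φ) 0 (2 * π) (-h) h =
      4 * π * Complex.I * ∑ k ∈ T,
        Lagrange.nodalWeight T (fun j : ℕ => 2 * Complex.cos (z j)) k * EZ a N 1 (z k) := by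
  have hR := Pool.Agent.W973.VcRect.rect
  have hf : Differentiable ℂ (fun z => EZ a N 1 z) := EZ_diff a N 1
  have step1 : Pool.Agent.W709.VC.rect (fun φ => PZ a N (1, 1) φ / QG T z φ) 0 (2 * π) (-h) h =
      Pool.Agent.W709.VC.rect (fun φ => ∑ k ∈ T,
        Lagrange.nodalWeight T (fun j : ℕ => 2 * Complex.cos (z j)) k *
          (EZ a N 1 φ * KK (z k) φ + EZ a N 1 φ * KK (2 * π - z k) φ))
        0 (2 * π) (-h) h := by
    apply rect_congr
    intro φ hφ
    have hne : ∀ j ∈ T, Complex.cos φ ≠ Complex.cos (z j) := fun j hj =>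
      bd_ne (hnode j hj).1 (hnode j hj).2.1 (hnode j hj).2.2 hφ
    have hne2 : ∀ j ∈ T, 2 * Complex.cos φ ≠ 2 * Complex.cos (z j) := by
      intro j hj h3
      exact hne j hj (mul_left_cancel₀ two_ne_zero h3)
    have h1 := Lagrange.eval_interpolate_not_at_node (s := T)
      (v := fun j : ℕ => 2 * Complex.cos (z j)) (1 : ℕ → ℂ) (x := 2 * Complex.cos φ) hne2
    rw [Lagrange.interpolate_one hinj hT, Polynomial.eval_one, Lagrange.eval_nodal] at h1
    have hQ : QG T z φ = ∏ j ∈ T, (2 * Complex.cos φ - 2 * Complex.cos (z j)) := rfl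
    rw [← hQ] at h1
    have hQ0 : QG T z φ ≠ 0 := by
      intro h0
      rw [h0] at h1
      simp at h1
    show PZ a N (1, 1) φ / QG T z φ = _
    have h2 : (QG T z φ)⁻¹ = ∑ i ∈ T, Lagrange.nodalWeight T
        (fun j : ℕ => 2 * Complex.cos (z j)) i * (2 * Complex.cos φ - 2 * Complex.cos (z i))⁻¹ := by
      rw [inv_eq_one_div, div_eq_iff hQ0, mul_comm]
      simpa using h1
    rw [div_eq_mul_inv, h2, Finset.mul_sum]
    apply Finset.sum_congr rfl
    intro k hk
    rw [← mul_add, ← kernel_eq (hne k hk)]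
    unfold PZ
    ring
  rw [step1]
  have hRI1 : ∀ k ∈ T, RI (fun φ => EZ a N 1 φ * KK (z k) φ) 0 (2 * π) (-h) h := by
    intro k hk
    apply RI_of_cont
    intro φ hφ
    have h1 := bd_ne (hnode k hk).1 (hnode k hk).2.1 (hnode k hk).2.2 hφ
    exact (hf.continuous.continuousAt).mul (KK_cont (sin_ne h1).1)
  have hRI2 : ∀ k ∈ T, RI (fun φ => EZ a N 1 φ * KK (2 * π - z k) φ) 0 (2 * π) (-h) h := by
    intro k hk
    apply RI_of_cont
    intro φ hφ
    have h1 := bd_ne (hnode k hk).1 (hnode k hk).2.1 (hnode k hk).2.2 hφ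
    refine (hf.continuous.continuousAt).mul (KK_cont ?_)
    have e1 : (φ - (2 * π - z k)) / 2 = (φ + z k) / 2 - π := by ring
    rw [e1, Complex.sin_sub_pi]
    exact neg_ne_zero.2 (sin_ne h1).2
  have hRI3 : ∀ k ∈ T, RI (fun φ =>
      Lagrange.nodalWeight T (fun j : ℕ => 2 * Complex.cos (z j)) k *
      (EZ a N 1 φ * KK (z k) φ + EZ a N 1 φ * KK (2 * π - z k) φ)) 0 (2 * π) (-h) h := by
    intro k hk
    have := RI_add (hRI1 k hk) (hRI2 k hk)
    exact ⟨this.1.const_mul _, this.2.1.const_mul _, this.2.2.1.const_mul _,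
      this.2.2.2.const_mul _⟩
  rw [rect_sum _ hRI3, Finset.mul_sum]
  apply Finset.sum_congr rfl
  intro k hk
  rw [rect_mul, rect_add (hRI1 k hk) (hRI2 k hk)]
  obtain ⟨g1, g2, g3⟩ := hnode k hk
  have r1 := hR (fun z => EZ a N 1 z) (z k) h hf g1 g2 g3
  have r2 := hR (fun z => EZ a N 1 z) (2 * π - z k) h hf
    (by simp; linarith) (by simp; linarith) (by simpa using g3)
  have r1' : Pool.Agent.W709.VC.rect (fun φ => EZ a N 1 φ * KK (z k) φ) 0 (2 * π) (-h) h =
      2 * π * Complex.I * EZ a N 1 (z k) := r1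
  have r2' : Pool.Agent.W709.VC.rect (fun φ => EZ a N 1 φ * KK (2 * π - z k) φ) 0 (2 * π) (-h) h =
      2 * π * Complex.I * EZ a N 1 (2 * π - z k) := r2
  rw [r1', r2', EZ_symm]
  ring

/-- the nodes -/
noncomputable def zn (N : ℕ) (ε : ℂ) (k : ℕ) : ℂ := ((Pool.Agent.W709.VC.phi N k : ℝ) : ℂ) + 2 * Complex.I * ε

/-- the factor -/
noncomputable def Cf (N : ℕ) (ε : ℂ) : ℂ :=
  -Complex.I * Complex.exp (π * Complex.I / N - Complex.I * π / (4 * N) - Complex.I * π * N / 4 -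
    N * ε + Complex.I * N * ε ^ 2 / π)

lemma Cf_ne (N : ℕ) (ε : ℂ) : Cf N ε ≠ 0 :=
  mul_ne_zero (neg_ne_zero.2 Complex.I_ne_zero) (Complex.exp_ne_zero _)

lemma Cf_norm (N : ℕ) : ‖Cf N 0‖ = 1 := by
  unfold Cf
  rw [norm_mul, norm_neg, Complex.norm_I, one_mul]
  have e1 : (π * Complex.I / N - Complex.I * π / (4 * N) - Complex.I * π * N / 4 -
    N * 0 + Complex.I * N * (0 : ℂ) ^ 2 / π : ℂ) =
      ((π / N - π / (4 * N) - π * N / 4 : ℝ) : ℂ) * Complex.I := by
    push_cast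
    ring
  rw [e1, Complex.norm_exp_ofReal_mul_I]

lemma uu_eq {N : ℕ} (hN : 0 < N) (ε : ℂ) (k : ℕ) :
    Pool.Agent.Y472.uu (Pool.Agent.W711.HT.vN N) (-Complex.exp ε) k = 2 * Complex.cos (zn N ε k) := by
  have hN0 : (N : ℂ) ≠ 0 := by exact_mod_cast hN.ne'
  unfold Pool.Agent.Y472.uu Pool.Agent.W711.HT.vN
  have e1 : (-Complex.exp ε) ^ 2 * Complex.exp (π * Complex.I / N) ^ (-1 - 2 * (k : ℤ)) =
      Complex.exp (-(zn N ε k * Complex.I)) := by
    rw [neg_sq, ← Complex.exp_nat_mul, ← Complex.exp_int_mul, ← Complex.exp_add]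
    congr 1
    unfold zn Pool.Agent.W709.VC.phi
    push_cast
    have h2 := Complex.I_sq
    field_simp
    ring_nf
    rw [h2]
    ring
  rw [e1, ← Complex.exp_neg, neg_neg, Complex.two_cos, neg_mul, add_comm]

lemma se_eq {N : ℕ} (hN : 0 < N) (ε : ℂ) (k : ℕ) :
    Pool.Agent.Y472.se (Pool.Agent.W711.HT.vN N) (-Complex.exp ε) k = Cf N ε * EZ 1 N 1 (zn N ε k) := by
  have hN0 : (N : ℂ) ≠ 0 := by exact_mod_cast hN.ne'
  have hpi0 : (π : ℂ) ≠ 0 := by exact_mod_cast Real.pi_ne_zero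
  have e0 : -Complex.exp ε = Complex.exp (ε + π * Complex.I) := by
    rw [Complex.exp_add, Complex.exp_pi_mul_I]
    ring
  have e1 : (-1 : ℂ) ^ k = Complex.exp (k * (π * Complex.I)) := by
    rw [Complex.exp_nat_mul, Complex.exp_pi_mul_I]
  have e2 : -Complex.I = Complex.exp (-(π / 2) * Complex.I) := by
    rw [← neg_div, Complex.exp_neg_pi_div_two_mul_I]
  unfold Pool.Agent.Y472.se Pool.Agent.W711.HT.vN Cf EZ
  rw [e0, e1, e2, ← Complex.exp_int_mul, ← Complex.exp_nat_mul, ← Complex.exp_add,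
    ← Complex.exp_add, ← Complex.exp_add, ← Complex.exp_add]
  congr 1
  unfold zn Pool.Agent.W709.VC.phi
  push_cast
  have h2 := Complex.I_sq
  have h3 : Complex.I ^ 3 = -Complex.I := by
    rw [pow_succ, h2]
    ring
  field_simp
  ring_nf
  simp only [h2, h3]
  ring

/-- the nodes are distinct -/
lemma zn_inj {N : ℕ} (hN : 0 < N) {ε : ℂ} (h0 : ε ≠ 0) (h1 : ‖ε‖ < π / (2 * N)) {j k : ℕ}
    (hj : j < N) (hk : k < N) (h : Complex.cos (zn N ε j) = Complex.cos (zn N ε k)) : j = k := by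
  have hN0 : (N : ℂ) ≠ 0 := by exact_mod_cast hN.ne'
  have hNr : (0 : ℝ) < N := by exact_mod_cast hN
  have hpi0 : (π : ℂ) ≠ 0 := by exact_mod_cast Real.pi_ne_zero
  rw [Complex.cos_eq_cos_iff] at h
  obtain ⟨n, h | h⟩ := h
  · -- `z_k = 2 n π + z_j`
    unfold zn Pool.Agent.W709.VC.phi at h
    push_cast at h
    have h2 : ((k : ℤ) - j : ℂ) = ((n * N : ℤ) : ℂ) := by
      push_cast
      have h3 : (π : ℂ) * (2 * k + 1) / N = 2 * n * π + π * (2 * j + 1) / N := by
        linear_combination h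
      field_simp at h3
      linear_combination (1 / 2) * h3
    have h3 : (k : ℤ) - j = n * N := by exact_mod_cast h2
    have h4 : n = 0 := by
      by_contra hne
      rcases lt_or_gt_of_ne hne with h5 | h5
      · have : n * N ≤ -1 * N := by
          apply mul_le_mul_of_nonneg_right (by omega) (by omega)
        omega
      · have : 1 * (N : ℤ) ≤ n * N := by
          apply mul_le_mul_of_nonneg_right (by omega) (by omega)
        omega
    rw [h4] at h3
    omega
  · exfalso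
    unfold zn Pool.Agent.W709.VC.phi at h
    push_cast at h
    have h2 : 4 * Complex.I * ε = 2 * π / N * ((n * N - j - k - 1 : ℤ) : ℂ) := by
      push_cast
      have h3 : (π : ℂ) * (2 * k + 1) / N + 4 * Complex.I * ε + π * (2 * j + 1) / N = 2 * n * π := by
        linear_combination h
      field_simp at h3 ⊢
      linear_combination h3
    set m : ℤ := n * N - j - k - 1 with hm
    have h3 : ‖4 * Complex.I * ε‖ = 4 * ‖ε‖ := by
      rw [norm_mul, norm_mul, Complex.norm_I]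
      norm_num
    have h4 : ‖(2 * π / N * (m : ℂ) : ℂ)‖ = 2 * π / N * |(m : ℝ)| := by
      rw [norm_mul, norm_div, norm_mul, Complex.norm_real, Complex.norm_natCast, Complex.norm_intCast,
        Real.norm_of_nonneg Real.pi_pos.le]
      norm_num
    rw [h2, h4] at h3
    have h5 : m ≠ 0 := by
      intro hm0
      rw [hm0] at h3
      simp at h3
      exact h0 h3
    have h6 : (1 : ℝ) ≤ |(m : ℝ)| := by
      rw [← Int.cast_abs]
      exact_mod_cast Int.one_le_abs h5
    have h7 : 2 * π / N * 1 ≤ 2 * π / N * |(m : ℝ)| :=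
      mul_le_mul_of_nonneg_left h6 (by positivity)
    have h8 : 4 * ‖ε‖ < 4 * (π / (2 * N)) := by linarith
    have h9 : 4 * (π / (2 * N)) = 2 * π / N * 1 := by field_simp; ring
    linarith

/-- the analytic continuation -/
noncomputable def Gf (N : ℕ) (a : ℤ) (i j : ℕ) (ε : ℂ) : ℂ :=
  Cf N ε ^ a * (Pool.Agent.W709.VC.rect (fun φ => PZ a N (1, 1) φ / QG (Icc i j) (zn N ε) φ)
    0 (2 * π) (-(1 / N)) (1 / N) / (4 * π * Complex.I))

lemma uu_fun {N : ℕ} (hN : 0 < N) (ε : ℂ) :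
    Pool.Agent.Y472.uu (Pool.Agent.W711.HT.vN N) (-Complex.exp ε) =
      fun k => 2 * Complex.cos (zn N ε k) := by
  funext k
  exact uu_eq hN ε k

lemma se_pow {N : ℕ} (hN : 0 < N) (a : ℤ) (ε : ℂ) (k : ℕ) :
    Pool.Agent.Y472.se (Pool.Agent.W711.HT.vN N) (-Complex.exp ε) k ^ a =
      Cf N ε ^ a * EZ a N 1 (zn N ε k) := by
  rw [se_eq hN, mul_zpow, Pool.Agent.W349.HT.EZ_eq, Pool.Agent.W349.HT.EZ_eq, zpow_one]

lemma zn_zero (N k : ℕ) : zn N 0 k = ((Pool.Agent.W709.VC.phi N k : ℝ) : ℂ) := by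
  unfold zn
  ring

lemma zn_cont (N k : ℕ) : Continuous fun ε => zn N ε k := by
  unfold zn
  fun_prop

lemma small_ev {N : ℕ} (hN : 0 < N) : ∀ᶠ ε in 𝓝[≠] (0 : ℂ), ‖ε‖ < π / (2 * N) := by
  have hNr : (0 : ℝ) < N := by exact_mod_cast hN
  have h1 : ∀ᶠ ε in 𝓝 (0 : ℂ), ‖ε‖ < π / (2 * N) := by
    have h2 : ContinuousAt (fun ε : ℂ => ‖ε‖) 0 := continuous_norm.continuousAt
    refine h2.eventually_lt_const ?_
    show ‖(0 : ℂ)‖ < π / (2 * N)
    rw [norm_zero]
    positivity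
  exact h1.filter_mono nhdsWithin_le_nhds

lemma near {N : ℕ} (hN : 2 ≤ N) (a : ℤ) {i j : ℕ} (hij : i ≤ j) (hj : j < N) :
    ∀ᶠ ε in 𝓝[≠] (0 : ℂ), Gf N a i j ε =
      Pool.Agent.Y472.gd (Pool.Agent.W711.HT.vN N) (-Complex.exp ε) a i j := by
  have hNp : 0 < N := by omega
  have hNr : (0 : ℝ) < N := by exact_mod_cast hNp
  have hnode : ∀ᶠ ε in 𝓝[≠] (0 : ℂ), ∀ k ∈ Icc i j,
      0 < (zn N ε k).re ∧ (zn N ε k).re < 2 * π ∧ |(zn N ε k).im| < 1 / N := by
    rw [Filter.eventually_all_finset]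
    intro k hk
    rw [Finset.mem_Icc] at hk
    have hc : ContinuousAt (fun ε => zn N ε k) 0 := (zn_cont N k).continuousAt
    have h1 := phi_mem (N := N) (j := k) (by omega)
    have hre : ContinuousAt (fun ε => (zn N ε k).re) 0 := Complex.continuous_re.continuousAt.comp hc
    have him : ContinuousAt (fun ε => |(zn N ε k).im|) 0 :=
      (Complex.continuous_im.continuousAt.comp hc).abs
    have a1 : 0 < (zn N 0 k).re := by rw [zn_zero]; simpa using h1.1
    have a2 : (zn N 0 k).re < 2 * π := by rw [zn_zero]; simpa using h1.2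
    have a3 : |(zn N 0 k).im| < 1 / (N : ℝ) := by
      rw [zn_zero, Complex.ofReal_im, abs_zero]
      positivity
    exact ((hre.eventually_const_lt a1).and ((hre.eventually_lt_const a2).and
      (him.eventually_lt_const a3))).filter_mono nhdsWithin_le_nhds
  filter_upwards [hnode, small_ev hNp, self_mem_nhdsWithin] with ε h1 h2 h3
  have h3' : ε ≠ 0 := h3
  have hinj : Set.InjOn (fun k : ℕ => 2 * Complex.cos (zn N ε k)) (Icc i j) := by
    intro k hk m hm h
    rw [Finset.mem_coe, Finset.mem_Icc] at hk hm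
    exact zn_inj hNp h3' h2 (by omega) (by omega) (mul_left_cancel₀ two_ne_zero h)
  unfold Gf Pool.Agent.Y472.gd
  rw [rect_QG a N (Icc i j) ⟨i, Finset.mem_Icc.2 ⟨le_rfl, hij⟩⟩ (zn N ε) (1 / N) h1 hinj]
  have hpi : (4 * π * Complex.I : ℂ) ≠ 0 := by
    have : (π : ℂ) ≠ 0 := by exact_mod_cast Real.pi_ne_zero
    simp [this]
  rw [mul_div_cancel_left₀ _ hpi, Finset.mul_sum, uu_fun hNp]
  refine Finset.sum_congr rfl fun k _ => ?_
  rw [se_pow hNp]
  ring

lemma Cf_diff (N : ℕ) (a : ℤ) : Differentiable ℂ fun ε => Cf N ε ^ a := by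
  intro ε
  have h1 : DifferentiableAt ℂ (Cf N) ε := by
    unfold Cf
    fun_prop
  exact h1.zpow (Or.inl (Cf_ne N ε))

/-- the divided differences are holomorphic outside the centre -/
lemma gd_diff {N : ℕ} (hN : 0 < N) (a : ℤ) {i j : ℕ} (hj : j < N) {ε : ℂ} (h0 : ε ≠ 0)
    (h1 : ‖ε‖ < π / (2 * N)) :
    DifferentiableAt ℂ (fun ε => Pool.Agent.Y472.gd (Pool.Agent.W711.HT.vN N)
      (-Complex.exp ε) a i j) ε := by
  have e1 : (fun ε => Pool.Agent.Y472.gd (Pool.Agent.W711.HT.vN N) (-Complex.exp ε) a i j) =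
      fun ε => ∑ k ∈ Icc i j, (∏ m ∈ (Icc i j).erase k,
        (2 * Complex.cos (zn N ε k) - 2 * Complex.cos (zn N ε m))⁻¹) *
          (Cf N ε ^ a * EZ a N 1 (zn N ε k)) := by
    funext ε
    unfold Pool.Agent.Y472.gd Lagrange.nodalWeight
    refine Finset.sum_congr rfl fun k _ => ?_
    rw [se_pow hN, uu_fun hN]
  rw [e1]
  refine DifferentiableAt.fun_sum fun k hk => ?_
  rw [Finset.mem_Icc] at hk
  refine DifferentiableAt.mul ?_ ?_
  · refine DifferentiableAt.fun_finsetProd fun m hm => ?_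
    rw [Finset.mem_erase, Finset.mem_Icc] at hm
    refine DifferentiableAt.inv ?_ ?_
    · unfold zn
      fun_prop
    · intro h
      have h2 : Complex.cos (zn N ε k) = Complex.cos (zn N ε m) := by
        linear_combination (1 / 2) * h
      exact hm.1 (zn_inj hN h0 h1 (by omega) (by omega) h2).symm
  · refine (Cf_diff N a ε).mul ?_
    have h3 : DifferentiableAt ℂ (fun ε => zn N ε k) ε := by
      unfold zn
      fun_prop
    exact (EZ_diff a N 1 _).comp ε h3

lemma Gf_cont {N : ℕ} (hN : 0 < N) (a : ℤ) {i j : ℕ} (hj : j < N) :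
    ContinuousAt (Gf N a i j) 0 := by
  have hNr : (0 : ℝ) < N := by exact_mod_cast hN
  have hP : Continuous (Function.uncurry fun (_ : ℂ) (φ : ℂ) => PZ a N (1, 1) φ) := by
    have e0 : Continuous fun q : ℂ × ℂ => ((((1 : ℂ), (1 : ℂ)), q.2) : (ℂ × ℂ) × ℂ) := by
      fun_prop
    have e1 := (PZ_cont a N).comp e0
    exact e1
  have hQ : Continuous (Function.uncurry fun (ε : ℂ) (φ : ℂ) => QG (Icc i j) (zn N ε) φ) := by
    unfold QG zn Function.uncurry
    fun_prop
  have h1 := tendsto_rect_div (X := ℂ) hP hQ (a := 0) (b := 2 * π) (c := -(1 / N)) (d := 1 / N)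
    (p₀ := (0 : ℂ)) (by
      intro z hz
      unfold QG
      rw [Finset.prod_ne_zero_iff]
      intro k hk
      rw [Finset.mem_Icc] at hk
      rw [zn_zero]
      have h2 := phi_mem (N := N) (j := k) (by omega)
      have h3 := bd_ne (z := ((Pool.Agent.W709.VC.phi N k : ℝ) : ℂ)) (by simpa using h2.1)
        (by simpa using h2.2) (h := 1 / N) (by
          rw [Complex.ofReal_im, abs_zero]
          positivity) hz
      intro h4
      apply h3
      linear_combination (1 / 2) * h4)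
  have h2 : ContinuousAt (fun ε => Cf N ε ^ a) 0 := (Cf_diff N a 0).continuousAt
  exact h2.mul (ContinuousAt.div_const h1 _)

theorem gda : Pool.Agent.Y472.S_GDA := by
  intro N hN
  have hNp : 0 < N := by omega
  have hNr : (0 : ℝ) < N := by exact_mod_cast hNp
  refine ⟨fun a => Cf N 0 ^ a * Complex.I, fun a => ?_, fun a i j hij hj => ?_⟩
  · rw [norm_mul, norm_zpow, Cf_norm, one_zpow, Complex.norm_I, one_mul]
  refine ⟨Gf N a i j, ?_, ?_, near hN a hij hj⟩
  · -- removable singularity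
    have hd : ∀ᶠ ε in 𝓝[≠] (0 : ℂ), DifferentiableAt ℂ (Gf N a i j) ε := by
      have h1 := eventually_eventually_nhdsWithin.2 (near hN a hij hj)
      filter_upwards [h1, small_ev hNp, self_mem_nhdsWithin] with ε h2 h3 h4
      have h4' : ε ≠ 0 := h4
      have h5 : 𝓝[≠] ε ≤ 𝓝 ε := nhdsWithin_le_nhds
      have h6 : Gf N a i j =ᶠ[𝓝 ε] fun ε => Pool.Agent.Y472.gd (Pool.Agent.W711.HT.vN N)
          (-Complex.exp ε) a i j := by
        have h7 : 𝓝[{0}ᶜ] ε = 𝓝 ε := isOpen_compl_singleton.nhdsWithin_eq h4'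
        rw [h7] at h2
        exact h2
      exact (gd_diff hNp a hj h4' h3).congr_of_eventuallyEq h6
    exact (Complex.analyticAt_of_differentiable_on_punctured_nhds_of_continuousAt hd
      (Gf_cont hNp a hj)).differentiableAt
  · have e1 : ∀ φ, QG (Icc i j) (zn N 0) φ = QZ N (Icc i j) (1, 1) φ := by
      intro φ
      unfold QG Pool.Agent.W349.HT.QZ
      refine Finset.prod_congr rfl fun k _ => ?_
      rw [zn_zero, zz_one]
    unfold Gf
    simp only [e1]
    have hpi0 : (π : ℂ) ≠ 0 := by exact_mod_cast Real.pi_ne_zero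
    have hI0 : Complex.I ≠ 0 := Complex.I_ne_zero
    have hh : (0 : ℝ) < 1 / N := by positivity
    rw [rect_FZ a hj hij hh, rect_upp hh (FZ_odd a N i j) (FZ_RI a hNp hh)]
    have e2 : Pool.Agent.Y472.cJ N a i j = (-1) ^ (N - 1 - j + i) / (2 * π) *
        Pool.Agent.W711.HT.upp (1 / N) (FZ a N i j) := rfl
    rw [e2]
    field_simp
    rw [Complex.I_sq]
    ring

end Pool.Agent.Y686.CB
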